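import Pool.Agent.KTB.StmtsKB

/-!
# Squad KTB, row FRC: three free points of a cover
-/

set_option autoImplicit false

namespace Pool.Agent.KTB.H26

open Pool.Agent.KTB Finset
open scoped Classical

/-- FRC -/
theorem frc (h1 : RkaStmt) (h2 : FbgStmt) (h3 : FraStmt) (h4 : FrbStmt) : FrcStmt := by
  intro ι T _ D S K μ hI hμ
  obtain ⟨hR, hb⟩ := h1 ι T D S K μ hI
  obtain ⟨F, hF, hfre⟩ := h2 ι T (D.rk S) (D.E S) K hR (hb hμ)
  have hfr : ∀ q ∈ F, D.Fr S K q.1 q.2 := fun q hq => h3 ι T D S K μ q.1 q.2 hI (hfre q hq)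
  refine ⟨F, hF, hfr, ?_⟩
  intro q hq q' hq' hne
  have hq1 := hfr q hq
  have hq2 := hfr q' hq'
  refine h4 ι T D S K μ q.1 q'.1 q.2 q'.2 hI hq1 hq2 ?_
  intro h
  apply hne
  have h5 : q.1 = q'.1 := by
    by_contra h6
    have h7 := hq2.oth q.1 hq1.kK h6
    have h8 := hq1.tk
    rw [h, h7] at h8
    norm_num at h8
  exact Prod.ext h5 h

end Pool.Agent.KTB.H26
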